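import Pool.Agent.Work.MP_b51559_nt.TP.Fin5

/-!
# Consecutive primes at distance at most `120 * q` in a residue class modulo `q`

For every even `q > 0` and every `a` coprime to `q` there are `c > 0` and `N` such that for every
`x ≥ N` at least `c * x / (log x) ^ 49` primes `p` have the following property: the next prime `p'`
satisfies `x < p`, `p' < 2 * x`, `p' ≤ p + 120 * q`, and `p`, `p'` are congruent to `a` modulo `q`.
For `q = 2`: consecutive primes at distance at most `240` in every interval `(x, 2x)`, `x` large, in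
particular (take `x = n + 4`) in every interval `(n + 4, 2 ^ (n + 4))` with `n` large.
-/

set_option autoImplicit false

namespace Pool.Agent.Results.MP_b51559_nt.BoundedGaps240

theorem result : ∀ q a : ℕ, 0 < q → Even q → a.Coprime q →
    ∃ c : ℝ, 0 < c ∧ ∃ N : ℕ, ∀ x : ℕ, N ≤ x → c * x / Real.log x ^ 49 ≤
      (Set.ncard {p : ℕ | ∃ p' : ℕ, p.Prime ∧ p'.Prime ∧ p < p' ∧ (∀ r, p < r → r < p' → ¬ r.Prime) ∧
        x < p ∧ p' < 2 * x ∧ p' ≤ p + 120 * q ∧ p ≡ a [MOD q] ∧ p' ≡ a [MOD q]} : ℝ) :=
  fun q a hq hqe ha => MPb51559.TP.two_plain q a hq hqe ha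

end Pool.Agent.Results.MP_b51559_nt.BoundedGaps240
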