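import Pool.Agent.Work.MP_b51559_nt.BG.E.Sev

set_option autoImplicit false

/-!
# One seventh of all even numbers are differences of consecutive primes

There are absolute constants `C`, `r` such that for every even `h > 0`, every squarefree `q` dividing
`h`, every `a` coprime to `q`, every `H` and all large `x`: at every scale `N`, `C < N ≤ H`, outside at
most `r` blocks `[t, C t]`, at least `100 N / 698 > N / 7` of the `j ≤ N` have the following property:
`j h` is the difference of two consecutive primes `p < p'` in `(x, 2 x)` with `p ≡ a` modulo `q`, and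
also of such primes beyond every bound.

For `h = 2` this gives the lower density `≥ 1/14` of the set of all integers which are infinitely
often differences of consecutive primes.
-/

namespace Pool.Agent.Results.MP_b51559_nt.PolignacDensity

theorem result :
    ∃ C r : ℕ, ∀ h q a : ℕ, 0 < h → Even h → Squarefree q → q ∣ h → a.Coprime q →
      ∀ H : ℕ, ∃ x₀ : ℝ, ∀ x : ℝ, x₀ ≤ x → ∃ T : Finset ℕ, T.card ≤ r ∧
        ∀ N : ℕ, C < N → N ≤ H → (∀ t ∈ T, ¬ (t ≤ N ∧ N ≤ C * t)) →
          100 * N ≤ 698 * Set.ncard {j : ℕ | 1 ≤ j ∧ j ≤ N ∧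
            (∃ p p' : ℕ, p.Prime ∧ p'.Prime ∧ x < p ∧ (p' : ℝ) < 2 * x ∧ p < p' ∧
              (∀ l : ℕ, p < l → l < p' → ¬ l.Prime) ∧ p ≡ a [MOD q] ∧ p' - p = j * h) ∧
            (∀ y : ℝ, ∃ p p' : ℕ, p.Prime ∧ p'.Prime ∧ y < p ∧ p < p' ∧
              (∀ l : ℕ, p < l → l < p' → ¬ l.Prime) ∧ p ≡ a [MOD q] ∧ p' - p = j * h)} :=
  MPb51559.BG.e_seventh

end Pool.Agent.Results.MP_b51559_nt.PolignacDensity
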