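import Pool.Agent.Work.MP_b51559_nt.TP.Three

/-!
# Three consecutive primes in an interval of length `15794 * q`, in a residue class modulo `q`

For every even `q > 0` and every `a` coprime to `q` there are `c > 0` and `N` such that for every
`x ≥ N` at least `c * x / (log x) ^ 3500` primes `p` have the following property: the next two primes
`p' < p''` after `p` satisfy `x < p`, `p'' < 2 * x`, `p'' ≤ p + 15794 * q`, and `p`, `p'`, `p''` are
congruent to `a` modulo `q`. For `q = 2`: three consecutive primes within `31588` in every interval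
`(x, 2x)`, `x` large.
-/

set_option autoImplicit false

namespace Pool.Agent.Results.MP_b51559_nt.ThreePrimes

theorem result : ∀ q a : ℕ, 0 < q → Even q → a.Coprime q →
    ∃ c : ℝ, 0 < c ∧ ∃ N : ℕ, ∀ x : ℕ, N ≤ x → c * x / Real.log x ^ 3500 ≤
      (Set.ncard {p : ℕ | ∃ p' p'' : ℕ, p.Prime ∧ p'.Prime ∧ p''.Prime ∧ p < p' ∧ p' < p'' ∧
        (∀ r, p < r → r < p'' → r.Prime → r = p') ∧ x < p ∧ p'' < 2 * x ∧ p'' ≤ p + 15794 * q ∧
        p ≡ a [MOD q] ∧ p' ≡ a [MOD q] ∧ p'' ≡ a [MOD q]} : ℝ) :=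
  fun q a hq hqe ha => MPb51559.TP.three3500 q a hq hqe ha

end Pool.Agent.Results.MP_b51559_nt.ThreePrimes
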