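import Pool.Agent.Work.MP_b51559_nt.DQ.All

set_option autoImplicit false

/-!
# An explicit proportion of all r-subsets of admissible sets are simultaneously prime

For every `r ≥ 2` and `ε > 0`, for every admissible set `V` with sufficiently many elements and all
large `x`, at least `(1 - ε) C(|V|, r) / (4 ^ (r - 1) (r - 1)!)` of the `r`-element subsets `M` of `V`
have the following property: for some `n > x` with `n + V` below `2 x` all the numbers `n + a`, `a ∈ M`,
are prime.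
-/

namespace Pool.Agent.Results.MP_b51559_nt.TuplesProportion

theorem result (r : ℕ) (hr : 2 ≤ r) (ε : ℝ) (hε : 0 < ε) :
    ∃ K : ℕ, ∀ V : Finset ℕ, K ≤ V.card →
      (∀ p : ℕ, p.Prime → ∃ v : ℕ, ∀ a ∈ V, ¬ p ∣ v + a) →
      ∃ x₀ : ℕ, ∀ x : ℕ, x₀ ≤ x →
        (1 - ε) * (V.card.choose r : ℝ) / (4 ^ (r - 1) * ((r - 1).factorial : ℝ)) ≤
          (Set.ncard {M : Finset ℕ | M ⊆ V ∧ M.card = r ∧ ∃ n : ℕ, x < n ∧
            (∀ a ∈ V, n + a < 2 * x) ∧ ∀ a ∈ M, (n + a).Prime} : ℝ) := by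
  classical
  obtain ⟨K, hK⟩ := MPb51559.DQ.tuples r hr ε hε
  refine ⟨K, fun V hV hadm => ?_⟩
  obtain ⟨x0, hx0⟩ := hK V hV hadm
  refine ⟨x0, fun x hx => (hx0 x hx).trans (le_of_eq ?_)⟩
  rw [← Set.ncard_coe_finset]
  congr 2
  ext M
  simp only [Finset.coe_filter, Finset.mem_powersetCard, Set.mem_ofPred_eq, and_assoc]

end Pool.Agent.Results.MP_b51559_nt.TuplesProportion
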